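import Pool.Agent.Helper55_DDQ.Stmts

/-!
# DDQ, module PRJ: projection from a smooth point of a surface of degree `D`.
-/

set_option autoImplicit false

namespace Pool.Agent.DDQ.H29

open MvPolynomial IntermediateField

variable {K : Type} [Field K]

/-- The grading homomorphism `P ↦ P(T X)`. -/
noncomputable def gr : MvPolynomial (Fin 3) K →ₐ[K] Polynomial (MvPolynomial (Fin 3) K) :=
  aeval (fun i => Polynomial.C (X i) * Polynomial.X)

lemma gr_monomial (m : Fin 3 →₀ ℕ) (c : K) :
    gr (monomial m c) = Polynomial.monomial m.degree (monomial m c) := by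
  unfold gr
  rw [aeval_monomial]
  have h1 : (m.prod fun i k => (Polynomial.C (X i : MvPolynomial (Fin 3) K) *
      Polynomial.X) ^ k) = Polynomial.C (m.prod fun i k => (X i) ^ k) *
      Polynomial.X ^ m.degree := by
    simp only [mul_pow, Finsupp.prod, Finset.prod_mul_distrib, map_prod, map_pow,
      Finset.prod_pow_eq_pow_sum, Finsupp.degree_apply]
  rw [h1, monomial_eq, ← Polynomial.C_mul_X_pow_eq_monomial, Polynomial.C_mul, ← mul_assoc]
  rfl

lemma gr_coeff (P : MvPolynomial (Fin 3) K) (n : ℕ) :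
    (gr P).coeff n = homogeneousComponent n P := by
  induction P using MvPolynomial.induction_on' with
  | monomial m c =>
    rw [gr_monomial, Polynomial.coeff_monomial]
    ext d
    rw [coeff_homogeneousComponent]
    by_cases h : m.degree = n
    · rw [if_pos h]
      by_cases h2 : d.degree = n
      · rw [if_pos h2]
      · rw [if_neg h2, coeff_monomial, if_neg]
        rintro rfl
        exact h2 h
    · rw [if_neg h, coeff_zero]
      by_cases h2 : d.degree = n
      · rw [if_pos h2, coeff_monomial, if_neg]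
        rintro rfl
        exact h h2
      · rw [if_neg h2]
  | add p q hp hq => rw [map_add, Polynomial.coeff_add, hp, hq, map_add]

lemma gr_ne_zero {P : MvPolynomial (Fin 3) K} (h : P ≠ 0) : gr P ≠ 0 := by
  intro h0
  apply h
  ext m
  have h1 := gr_coeff P m.degree
  rw [h0, Polynomial.coeff_zero] at h1
  have h2 := congrArg (coeff m) h1
  rw [coeff_homogeneousComponent, if_pos rfl] at h2
  exact h2.symm

/-- A nonzero multiple of `F` has monomials of degrees at distance at least `D - 1`. -/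
lemma spread {D s : ℕ} {F H : MvPolynomial (Fin 3) K} (hF : F.totalDegree = D)
    (h1 : homogeneousComponent 1 F = X 1) (hG : F * H ≠ 0)
    (hs : ∀ m ∈ (F * H).support, s ≤ m.degree ∧ m.degree + 2 ≤ s + D) : False := by
  have hF0 : F ≠ 0 := left_ne_zero_of_mul hG
  have hH0 : H ≠ 0 := right_ne_zero_of_mul hG
  have hcoeff : ∀ n, (gr (F * H)).coeff n ≠ 0 → s ≤ n ∧ n + 2 ≤ s + D := by
    intro n hn
    rw [gr_coeff] at hn
    obtain ⟨m, hm⟩ := MvPolynomial.ne_zero_iff.mp hn
    rw [coeff_homogeneousComponent] at hm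
    by_cases h2 : m.degree = n
    · rw [if_pos h2] at hm
      rw [← h2]
      exact hs m (mem_support_iff.mpr hm)
    · rw [if_neg h2] at hm
      exact absurd rfl hm
  have hg : gr (F * H) ≠ 0 := gr_ne_zero hG
  have e1 : (gr (F * H)).natDegree + 2 ≤ s + D :=
    (hcoeff _ (by rw [Polynomial.coeff_natDegree]; exact Polynomial.leadingCoeff_ne_zero.mpr hg)).2
  have e2 : s ≤ (gr (F * H)).natTrailingDegree :=
    (hcoeff _ (by
      rw [← Polynomial.trailingCoeff]
      exact Polynomial.trailingCoeff_nonzero_iff_nonzero.mpr hg)).1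
  have e3 : (gr (F * H)).natDegree = (gr F).natDegree + (gr H).natDegree := by
    rw [map_mul, Polynomial.natDegree_mul (gr_ne_zero hF0) (gr_ne_zero hH0)]
  have e4 : (gr (F * H)).natTrailingDegree =
      (gr F).natTrailingDegree + (gr H).natTrailingDegree := by
    rw [map_mul, Polynomial.natTrailingDegree_mul (gr_ne_zero hF0) (gr_ne_zero hH0)]
  have e5 : D ≤ (gr F).natDegree := by
    apply Polynomial.le_natDegree_of_ne_zero
    rw [gr_coeff]
    obtain ⟨m, hm, hm2⟩ : ∃ m ∈ F.support, m.degree = D := by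
      have hne : F.support.Nonempty := by
        rw [Finset.nonempty_iff_ne_empty, Ne, MvPolynomial.support_eq_empty]
        exact hF0
      obtain ⟨m, hm, hm2⟩ := Finset.exists_mem_eq_sup F.support hne
        (fun s => s.sum fun _ e => e)
      refine ⟨m, hm, ?_⟩
      rw [← hF, totalDegree, hm2]
      rfl
    intro h0
    have h2 := congrArg (coeff m) h0
    rw [coeff_homogeneousComponent, if_pos hm2, coeff_zero] at h2
    exact (mem_support_iff.mp hm) h2
  have e6 : (gr F).natTrailingDegree ≤ 1 := by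
    apply Polynomial.natTrailingDegree_le_of_ne_zero
    rw [gr_coeff, h1]
    exact X_ne_zero 1
  have e7 := Polynomial.natTrailingDegree_le_natDegree (gr H)
  omega

/-- The exponent map. -/
noncomputable def ex (N : ℕ) (m : Fin 3 →₀ ℕ) : Fin 3 →₀ ℕ :=
  Finsupp.equivFunOnFinite.symm ![N - m 0 + m 1, 2 * N - m 1 - m 2, m 0]

lemma ex_zero (N : ℕ) (m : Fin 3 →₀ ℕ) : ex N m 0 = N - m 0 + m 1 := rfl
lemma ex_one (N : ℕ) (m : Fin 3 →₀ ℕ) : ex N m 1 = 2 * N - m 1 - m 2 := rfl
lemma ex_two (N : ℕ) (m : Fin 3 →₀ ℕ) : ex N m 2 = m 0 := rfl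

lemma ex_inj {N : ℕ} {m m' : Fin 3 →₀ ℕ} (h : m 0 ≤ N ∧ m 1 ≤ N ∧ m 2 ≤ N)
    (h' : m' 0 ≤ N ∧ m' 1 ≤ N ∧ m' 2 ≤ N) (he : ex N m = ex N m') : m = m' := by
  have e0 := DFunLike.congr_fun he 0
  have e1 := DFunLike.congr_fun he 1
  have e2 := DFunLike.congr_fun he 2
  rw [ex_zero, ex_zero] at e0
  rw [ex_one, ex_one] at e1
  rw [ex_two, ex_two] at e2
  ext i
  fin_cases i
  · exact e2
  · show m 1 = m' 1
    omega
  · show m 2 = m' 2
    omega

lemma degree_three (m : Fin 3 →₀ ℕ) : m.degree = m 0 + m 1 + m 2 := by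
  rw [Finsupp.degree_eq_sum, Fin.sum_univ_three]

lemma le_totalDegree_of_mem {Q : MvPolynomial (Fin 3) K} {m : Fin 3 →₀ ℕ}
    (hm : m ∈ Q.support) : m 0 ≤ Q.totalDegree ∧ m 1 ≤ Q.totalDegree ∧ m 2 ≤ Q.totalDegree := by
  have h := le_totalDegree hm
  have h2 : (m.sum fun _ e => e) = m 0 + m 1 + m 2 := by
    rw [← degree_three]
    rfl
  omega

variable {L : Type} [Field L] [Algebra K L]

/-- Key lemma: a nonzero polynomial in `λ, M, Z` of degree at most `D - 2` in `Z` is not zero. -/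
lemma key {D : ℕ} {F : MvPolynomial (Fin 3) K} {A : Fin 3 → L} (hD : 2 ≤ D)
    (hF : F.totalDegree = D) (h1 : homogeneousComponent 1 F = X 1)
    (hA : ∀ P : MvPolynomial (Fin 3) K, aeval A P = 0 ↔ F ∣ P) (hA0 : A 0 ≠ 0) (hA1 : A 1 ≠ 0)
    (Q : MvPolynomial (Fin 3) K) (hQ : Q ≠ 0) (hQ2 : ∀ m ∈ Q.support, m 2 + 2 ≤ D) :
    aeval ![A 2 / A 0, A 0 / A 1, (A 1)⁻¹] Q ≠ 0 := by
  intro hz
  set N := Q.totalDegree with hN
  set G : MvPolynomial (Fin 3) K := ∑ m ∈ Q.support, monomial (ex N m) (coeff m Q) with hG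
  have hcG : ∀ m ∈ Q.support, coeff (ex N m) G = coeff m Q := by
    intro m hm
    rw [hG, coeff_sum, Finset.sum_eq_single m]
    · rw [coeff_monomial, if_pos rfl]
    · intro m' hm' hne
      rw [coeff_monomial, if_neg]
      intro he
      exact hne (ex_inj (le_totalDegree_of_mem hm') (le_totalDegree_of_mem hm) he)
    · intro h
      exact absurd hm h
  have hG0 : G ≠ 0 := by
    obtain ⟨m, hm⟩ := MvPolynomial.ne_zero_iff.mp hQ
    rw [MvPolynomial.ne_zero_iff]
    refine ⟨ex N m, ?_⟩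
    rw [hcG m (mem_support_iff.mpr hm)]
    exact hm
  have hsupp : ∀ e ∈ G.support, 3 * N + 2 - D ≤ e.degree ∧ e.degree + 2 ≤ 3 * N + 2 - D + D := by
    intro e he
    rw [mem_support_iff, hG, coeff_sum] at he
    obtain ⟨m, hm, hne⟩ := Finset.exists_ne_zero_of_sum_ne_zero he
    rw [coeff_monomial] at hne
    have hem : ex N m = e := by
      by_contra h
      rw [if_neg h] at hne
      exact hne rfl
    rw [← hem, degree_three, ex_zero, ex_one, ex_two]
    have h3 := le_totalDegree_of_mem hm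
    have h4 := hQ2 m hm
    rw [← hN] at h3
    omega
  have hev : aeval A G = A 0 ^ N * A 1 ^ (2 * N) *
      aeval ![A 2 / A 0, A 0 / A 1, (A 1)⁻¹] Q := by
    conv_rhs => rw [Q.as_sum]
    rw [hG, map_sum, map_sum, Finset.mul_sum]
    apply Finset.sum_congr rfl
    intro m hm
    have h3 := le_totalDegree_of_mem hm
    rw [← hN] at h3
    rw [aeval_monomial, aeval_monomial, Finsupp.prod_fintype _ _ (fun _ => pow_zero _),
      Finsupp.prod_fintype _ _ (fun _ => pow_zero _), Fin.prod_univ_three, Fin.prod_univ_three,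
      ex_zero, ex_one, ex_two]
    have hx : A 0 ^ N = A 0 ^ (N - m 0) * A 0 ^ (m 0) := by
      rw [← pow_add]
      congr 1
      omega
    have hy : A 1 ^ (2 * N) = A 1 ^ (2 * N - m 1 - m 2) * A 1 ^ (m 1) * A 1 ^ (m 2) := by
      rw [← pow_add, ← pow_add]
      congr 1
      omega
    rw [hx, hy]
    have e0 : (![A 2 / A 0, A 0 / A 1, (A 1)⁻¹] : Fin 3 → L) 0 = A 2 / A 0 := rfl
    have e1 : (![A 2 / A 0, A 0 / A 1, (A 1)⁻¹] : Fin 3 → L) 1 = A 0 / A 1 := rfl
    have e2 : (![A 2 / A 0, A 0 / A 1, (A 1)⁻¹] : Fin 3 → L) 2 = (A 1)⁻¹ := rfl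
    rw [e0, e1, e2, div_pow, div_pow, inv_pow, pow_add]
    have k0 : A 0 ^ (m 0) ≠ 0 := pow_ne_zero _ hA0
    have k1 : A 1 ^ (m 1) ≠ 0 := pow_ne_zero _ hA1
    have k2 : A 1 ^ (m 2) ≠ 0 := pow_ne_zero _ hA1
    field_simp
  rw [hz, mul_zero] at hev
  obtain ⟨H, hH⟩ := (hA G).mp hev
  rw [hH] at hG0 hsupp
  exact spread hF h1 hG0 hsupp

/-- Scaling of a homogeneous component. -/
lemma aeval_comp (c : L) (B : Fin 3 → L) (P : MvPolynomial (Fin 3) K) (n : ℕ) :
    aeval (fun j => c * B j) (homogeneousComponent n P) =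
      c ^ n * aeval B (homogeneousComponent n P) := by
  rw [homogeneousComponent_apply, map_sum, map_sum, Finset.mul_sum]
  apply Finset.sum_congr rfl
  intro d hd
  rw [Finset.mem_filter] at hd
  rw [aeval_monomial, aeval_monomial, Finsupp.prod_fintype _ _ (fun _ => pow_zero _),
    Finsupp.prod_fintype _ _ (fun _ => pow_zero _), Fin.prod_univ_three, Fin.prod_univ_three,
    ← hd.2, degree_three, pow_add, pow_add, mul_pow, mul_pow, mul_pow]
  ring

lemma degreeOf_rename_castSucc (p : MvPolynomial (Fin 2) K) :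
    degreeOf 2 (rename Fin.castSucc p) = 0 := by
  by_contra h
  have h1 : (2 : Fin 3) ∈ (rename Fin.castSucc p).vars := mem_vars_iff_degreeOf_ne_zero.mpr h
  obtain ⟨i, -, hi⟩ := mem_vars_rename _ _ h1
  have h2 : (i.castSucc : Fin 3).val = 2 := by rw [hi]; rfl
  have h3 := i.isLt
  rw [Fin.val_castSucc] at h2
  omega

/-- Independence of `λ` and `M`. -/
lemma indep {D : ℕ} {F : MvPolynomial (Fin 3) K} {A : Fin 3 → L} (hD : 2 ≤ D)
    (hF : F.totalDegree = D) (h1 : homogeneousComponent 1 F = X 1)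
    (hA : ∀ P : MvPolynomial (Fin 3) K, aeval A P = 0 ↔ F ∣ P) (hA0 : A 0 ≠ 0) (hA1 : A 1 ≠ 0) :
    AlgebraicIndependent K ![A 2 / A 0, A 0 / A 1] := by
  rw [algebraicIndependent_iff]
  intro p hp
  by_contra hne
  have hc : (![A 2 / A 0, A 0 / A 1, (A 1)⁻¹] : Fin 3 → L) ∘ Fin.castSucc =
      ![A 2 / A 0, A 0 / A 1] := by
    funext i
    fin_cases i <;> rfl
  refine key hD hF h1 hA hA0 hA1 (rename Fin.castSucc p) ?_ ?_ ?_
  · intro h0
    exact hne (rename_injective _ (Fin.castSucc_injective 2) (by rw [h0, map_zero]))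
  · intro m hm
    have h2 := le_degreeOf_of_mem_support 2 hm
    rw [degreeOf_rename_castSucc] at h2
    omega
  · rw [aeval_rename, hc, hp]

/-- The homomorphism to polynomials in the last variable. -/
noncomputable def phi : MvPolynomial (Fin 3) K →ₐ[K] Polynomial (MvPolynomial (Fin 2) K) :=
  aeval ![Polynomial.C (X 0), Polynomial.C (X 1), Polynomial.X]

lemma phi_rename (p : MvPolynomial (Fin 2) K) :
    phi (rename Fin.castSucc p) = Polynomial.C p := by
  have h : (phi (K := K)).comp (rename Fin.castSucc) =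
      (Polynomial.CAlgHom : MvPolynomial (Fin 2) K →ₐ[K] Polynomial (MvPolynomial (Fin 2) K)) := by
    apply algHom_ext
    intro i
    fin_cases i
    · simp [phi]
    · simp [phi]
  exact DFunLike.congr_fun h p

open scoped IntermediateField.algebraAdjoinAdjoin in
/-- The powers `Z ^ i`, `i < D - 1`, are linearly independent over `K(λ, M)`. -/
lemma linIndep {D : ℕ} {F : MvPolynomial (Fin 3) K} {A : Fin 3 → L} (hD : 2 ≤ D)
    (hF : F.totalDegree = D) (h1 : homogeneousComponent 1 F = X 1)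
    (hA : ∀ P : MvPolynomial (Fin 3) K, aeval A P = 0 ↔ F ∣ P) (hA0 : A 0 ≠ 0) (hA1 : A 1 ≠ 0) :
    LinearIndependent (adjoin K {A 2 / A 0, A 0 / A 1}) (fun i : Fin (D - 1) =>
      ((A 1)⁻¹ ^ (i : ℕ) : L)) := by
  rw [← LinearIndependent.iff_fractionRing (Algebra.adjoin K {A 2 / A 0, A 0 / A 1}),
    Fintype.linearIndependent_iff]
  intro g hg
  have hS : ({A 2 / A 0, A 0 / A 1} : Set L) = Set.range ![A 2 / A 0, A 0 / A 1] := by
    ext x
    constructor
    · rintro (rfl | rfl)
      · exact ⟨0, rfl⟩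
      · exact ⟨1, rfl⟩
    · rintro ⟨i, rfl⟩
      fin_cases i
      · exact Or.inl rfl
      · exact Or.inr rfl
  have hex : ∀ x ∈ Algebra.adjoin K {A 2 / A 0, A 0 / A 1},
      ∃ p : MvPolynomial (Fin 2) K, aeval ![A 2 / A 0, A 0 / A 1] p = x := by
    intro x hx
    rw [hS, Algebra.adjoin_range_eq_range_aeval] at hx
    exact hx
  have hex2 : ∀ i, ∃ p : MvPolynomial (Fin 2) K, aeval ![A 2 / A 0, A 0 / A 1] p = (g i : L) :=
    fun i => hex _ (g i).2
  choose p hp using hex2
  have hc : (![A 2 / A 0, A 0 / A 1, (A 1)⁻¹] : Fin 3 → L) ∘ Fin.castSucc =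
      ![A 2 / A 0, A 0 / A 1] := by
    funext i
    fin_cases i <;> rfl
  set Q : MvPolynomial (Fin 3) K := ∑ i : Fin (D - 1), rename Fin.castSucc (p i) * X 2 ^ (i : ℕ)
    with hQ
  have hQ0 : Q = 0 := by
    by_contra hne
    refine key hD hF h1 hA hA0 hA1 Q hne ?_ ?_
    · intro m hm
      rw [mem_support_iff, hQ, coeff_sum] at hm
      obtain ⟨i, -, hi⟩ := Finset.exists_ne_zero_of_sum_ne_zero hm
      have h2 := le_degreeOf_of_mem_support 2 (mem_support_iff.mpr hi)
      have h3 := degreeOf_mul_le 2 (rename Fin.castSucc (p i)) (X 2 ^ (i : ℕ))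
      rw [degreeOf_rename_castSucc, degreeOf_X_self_pow] at h3
      have h4 := i.isLt
      omega
    · rw [hQ, map_sum, ← hg]
      apply Finset.sum_congr rfl
      intro i _
      rw [map_mul, aeval_rename, hc, hp i, map_pow, aeval_X]
      rfl
  intro i
  have h5 : (phi Q).coeff (i : ℕ) = p i := by
    rw [hQ, map_sum, Polynomial.finsetSum_coeff, Finset.sum_eq_single i]
    · rw [map_mul, phi_rename, map_pow]
      have h6 : phi (X 2 : MvPolynomial (Fin 3) K) = Polynomial.X := by
        simp [phi]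
      rw [h6, Polynomial.coeff_C_mul, Polynomial.coeff_X_pow, if_pos rfl, mul_one]
    · intro j _ hj
      rw [map_mul, phi_rename, map_pow]
      have h6 : phi (X 2 : MvPolynomial (Fin 3) K) = Polynomial.X := by
        simp [phi]
      rw [h6, Polynomial.coeff_C_mul, Polynomial.coeff_X_pow, if_neg, mul_zero]
      intro h7
      exact hj (Fin.ext h7.symm)
    · intro h
      exact absurd (Finset.mem_univ i) h
  rw [hQ0, map_zero, Polynomial.coeff_zero] at h5
  apply Subtype.ext
  rw [← hp i, ← h5, map_zero]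
  rfl

/-- PRJ. -/
theorem prj : PrjStmt := by
  intro K L _ _ _ D F A hD hF h0 h1 hA htop
  have hne : ∀ P : MvPolynomial (Fin 3) K, P ≠ 0 → ∀ s, (∀ m ∈ P.support, m.degree = s) →
      aeval A P ≠ 0 := by
    intro P hP s hs hz
    obtain ⟨H, hH⟩ := (hA P).mp hz
    rw [hH] at hP hs
    refine spread (s := s) hF h1 hP ?_
    intro m hm
    have := hs m hm
    omega
  have hXi : ∀ i : Fin 3, A i ≠ 0 := by
    intro i
    have h2 := hne (X i) (X_ne_zero i) 1 (by
      intro m hm
      rw [support_X, Finset.mem_singleton] at hm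
      rw [hm, Finsupp.degree_single])
    rwa [aeval_X] at h2
  have hA0 := hXi 0
  have hA1 := hXi 1
  refine ⟨hA0, hA1, indep hD hF h1 hA hA0 hA1, ?_⟩
  set E := adjoin K ({A 2 / A 0, A 0 / A 1} : Set L) with hE
  have hlam : A 2 / A 0 ∈ E := subset_adjoin K _ (Or.inl rfl)
  have hM : A 0 / A 1 ∈ E := subset_adjoin K _ (Or.inr rfl)
  have hLI : LinearIndependent E (fun i : Fin (D - 1) => ((A 1)⁻¹ ^ (i : ℕ) : L)) :=
    linIndep hD hF h1 hA hA0 hA1
  -- generation
  have hgen : adjoin E ({(A 1)⁻¹} : Set L) = ⊤ := by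
    have h2 : adjoin E (Set.range A) = ⊤ := adjoin_eq_top_of_adjoin_eq_top K htop
    rw [← top_le_iff, ← h2, adjoin_le_iff]
    have hZ : (A 1)⁻¹ ∈ adjoin E ({(A 1)⁻¹} : Set L) := subset_adjoin _ _ rfl
    have m1 : A 1 ∈ adjoin E ({(A 1)⁻¹} : Set L) := by
      have := inv_mem hZ
      rwa [inv_inv] at this
    have mE : ∀ x ∈ E, x ∈ adjoin E ({(A 1)⁻¹} : Set L) := by
      intro x hx
      exact (adjoin E ({(A 1)⁻¹} : Set L)).algebraMap_mem ⟨x, hx⟩
    have m0 : A 0 ∈ adjoin E ({(A 1)⁻¹} : Set L) := by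
      have := mul_mem (mE _ hM) m1
      rwa [div_mul_cancel₀ _ hA1] at this
    have m2 : A 2 ∈ adjoin E ({(A 1)⁻¹} : Set L) := by
      have := mul_mem (mE _ hlam) m0
      rwa [div_mul_cancel₀ _ hA0] at this
    rintro x ⟨i, rfl⟩
    fin_cases i
    · exact m0
    · exact m1
    · exact m2
  -- the equation
  set B : Fin 3 → E := ![⟨A 0 / A 1, hM⟩, 1, ⟨A 2 / A 0, hlam⟩ * ⟨A 0 / A 1, hM⟩] with hB
  have hBA : ∀ P : MvPolynomial (Fin 3) K, ((aeval B P : E) : L) =
      aeval (fun j => (B j : L)) P := by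
    intro P
    exact (MvPolynomial.aeval_algebraMap_apply L B P).symm
  have hAB : A = fun j => A 1 * (B j : L) := by
    funext j
    fin_cases j
    · show A 0 = A 1 * (A 0 / A 1)
      field_simp
    · show A 1 = A 1 * ((1 : E) : L)
      rw [OneMemClass.coe_one, mul_one]
    · show A 2 = A 1 * ((A 2 / A 0) * (A 0 / A 1))
      field_simp
  set r : Polynomial E := ∑ i ∈ Finset.Icc 2 D,
    Polynomial.C (aeval B (homogeneousComponent i F)) * Polynomial.X ^ (D - i) with hr
  have hrdeg : r.degree < ((D - 1 : ℕ) : WithBot ℕ) := by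
    refine lt_of_le_of_lt (Polynomial.degree_sum_le _ _) ?_
    rw [Finset.sup_lt_iff (WithBot.bot_lt_coe _)]
    intro i hi
    rw [Finset.mem_Icc] at hi
    refine lt_of_le_of_lt (Polynomial.degree_C_mul_X_pow_le _ _) ?_
    exact_mod_cast (by omega : D - i < D - 1)
  have hmonic : (Polynomial.X ^ (D - 1) + r).Monic := Polynomial.monic_X_pow_add hrdeg
  have hdeg : (Polynomial.X ^ (D - 1) + r).natDegree = D - 1 := by
    apply Polynomial.natDegree_eq_of_degree_eq_some
    rw [Polynomial.degree_add_eq_left_of_degree_lt]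
    · exact Polynomial.degree_X_pow _
    · rw [Polynomial.degree_X_pow]
      exact hrdeg
  have hroot : Polynomial.aeval (A 1)⁻¹ (Polynomial.X ^ (D - 1) + r) = 0 := by
    have hFA : aeval A F = 0 := (hA F).mpr dvd_rfl
    have h2 : ∑ i ∈ Finset.range (D + 1), aeval A (homogeneousComponent i F) = 0 := by
      rw [← map_sum, ← hF, sum_homogeneousComponent, hFA]
    have h3 : ∀ i, aeval A (homogeneousComponent i F) =
        A 1 ^ i * ((aeval B (homogeneousComponent i F) : E) : L) := by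
      intro i
      rw [hBA]
      conv_lhs => rw [hAB]
      exact aeval_comp _ _ _ _
    have h4 : ((A 1)⁻¹) ^ D * ∑ i ∈ Finset.range (D + 1), aeval A (homogeneousComponent i F) = 0 := by
      rw [h2, mul_zero]
    rw [Finset.mul_sum] at h4
    have h5 : ∀ i ∈ Finset.range (D + 1), ((A 1)⁻¹) ^ D * aeval A (homogeneousComponent i F) =
        ((aeval B (homogeneousComponent i F) : E) : L) * (A 1)⁻¹ ^ (D - i) := by
      intro i hi
      rw [Finset.mem_range] at hi
      rw [h3 i]
      have h6 : ((A 1)⁻¹) ^ D = (A 1)⁻¹ ^ (D - i) * (A 1)⁻¹ ^ i := by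
        rw [← pow_add]
        congr 1
        omega
      rw [h6, inv_pow _ i]
      have h7 : A 1 ^ i ≠ 0 := pow_ne_zero _ hA1
      field_simp
    rw [Finset.sum_congr rfl h5] at h4
    have h8 : Finset.range (D + 1) = insert 0 (insert 1 (Finset.Icc 2 D)) := by
      ext x
      simp only [Finset.mem_range, Finset.mem_insert, Finset.mem_Icc]
      omega
    rw [h8, Finset.sum_insert (by simp), Finset.sum_insert (by simp), h0, h1, map_zero] at h4
    have h9 : aeval B (X 1 : MvPolynomial (Fin 3) K) = 1 := by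
      rw [aeval_X]
      rfl
    rw [h9] at h4
    rw [map_add, map_pow, Polynomial.aeval_X, hr, map_sum]
    rw [ZeroMemClass.coe_zero, zero_mul, zero_add, OneMemClass.coe_one, one_mul] at h4
    rw [← h4]
    congr 1
    apply Finset.sum_congr rfl
    intro i _
    rw [map_mul, Polynomial.aeval_C, map_pow, Polynomial.aeval_X]
    rfl
  have hint : IsIntegral E (A 1)⁻¹ := ⟨_, hmonic, hroot⟩
  have hfr : Module.finrank E L = (minpoly E (A 1)⁻¹).natDegree := by
    rw [← adjoin.finrank hint, hgen, finrank_top']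
  have hfd : FiniteDimensional E L := by
    have := adjoin.finiteDimensional hint
    rw [hgen] at this
    exact Module.Finite.equiv (topEquiv (F := E) (E := L)).toLinearEquiv
  apply le_antisymm
  · rw [hfr, ← hdeg]
    exact Polynomial.natDegree_le_natDegree (minpoly.min E _ hmonic hroot)
  · have := hLI.fintype_card_le_finrank
    rwa [Fintype.card_fin] at this

end Pool.Agent.DDQ.H29
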